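import Pool.Graph.R_pool_sql_team_seeded_64922ed1.X270.NT.StmtI

/-!
Actions of a group on rationally acyclic two-dimensional complexes.
-/

set_option autoImplicit false

open scoped Pointwise

namespace Pool.Agent.Helper80.TD

open Pool.Agent.H496R3.ZS (IsAmenable)
open Pool.Agent.X270.NT.St (Thin)

/-- A two-dimensional `G`-CW-complex with the rational homology of a point, given by its cellular
chain complex `ℚ[F] → ℚ[E] → ℚ[V]`: the `G`-sets `V`, `E`, `F` of its vertices, edges and
two-dimensional cells, where each cell has an orientation preserved by its stabiliser, and the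
boundary maps. There may be infinitely many orbits of cells. -/
structure Complex2 (G : Type) [Group G] where
  /-- the vertices -/
  V : Type
  /-- the edges -/
  E : Type
  /-- the two-dimensional cells -/
  F : Type
  /-- the action on the vertices -/
  actV : MulAction G V
  /-- the action on the edges -/
  actE : MulAction G E
  /-- the action on the two-dimensional cells -/
  actF : MulAction G F
  /-- the boundary of an edge -/
  d1 : (E →₀ ℚ) →ₗ[ℚ] (V →₀ ℚ)
  /-- the boundary of a two-dimensional cell -/
  d2 : (F →₀ ℚ) →ₗ[ℚ] (E →₀ ℚ)
  /-- the boundary map is equivariant -/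
  equi1 : ∀ (g : G) (x : E →₀ ℚ), d1 (x.mapDomain (g • ·)) = (d1 x).mapDomain (g • ·)
  /-- the boundary map is equivariant -/
  equi2 : ∀ (g : G) (x : F →₀ ℚ), d2 (x.mapDomain (g • ·)) = (d2 x).mapDomain (g • ·)
  /-- there is a vertex -/
  nonempty : Nonempty V
  /-- the homology in degree zero is `ℚ` -/
  exact0 : ∀ x : V →₀ ℚ, (x.sum fun _ a => a) = 0 ↔ ∃ y, d1 y = x
  /-- the homology in degree one is zero -/
  exact1 : ∀ x : E →₀ ℚ, d1 x = 0 ↔ ∃ y, d2 y = x
  /-- the homology in degree two is zero -/
  exact2 : Function.Injective d2

attribute [instance] Complex2.actV Complex2.actE Complex2.actF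

/-- A `G`-equivariant family of trees `T_e`, one for each element `e` of the `G`-set `E`, given by
the `G`-sets `T0` and `T1` of the vertices and of the oriented edges of all these trees: the
sequence `0 → ℚ[T1] → ℚ[T0] → ℚ[E] → 0` of the boundary map and of the map induced by the
projection `T0 → E` is exact. Equivalently, the stabiliser of each `e` acts on a tree `T_e` without
inversions. For instance all these trees can be points (`T0 = E`, `T1` empty). -/
structure Trees (G : Type) [Group G] (E : Type) [MulAction G E] where
  /-- the vertices of the trees -/
  T0 : Type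
  /-- the edges of the trees -/
  T1 : Type
  /-- the action on the vertices -/
  act0 : MulAction G T0
  /-- the action on the edges -/
  act1 : MulAction G T1
  /-- the projection -/
  proj : T0 → E
  /-- the projection is equivariant -/
  proj_equi : ∀ (g : G) (t : T0), proj (g • t) = g • proj t
  /-- the trees are not empty -/
  proj_surj : Function.Surjective proj
  /-- the boundary of an edge -/
  d : (T1 →₀ ℚ) →ₗ[ℚ] (T0 →₀ ℚ)
  /-- the boundary map is equivariant -/
  equi : ∀ (g : G) (x : T1 →₀ ℚ), d (x.mapDomain (g • ·)) = (d x).mapDomain (g • ·)
  /-- the homology in degree zero -/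
  exact0 : ∀ x : T0 →₀ ℚ, x.mapDomain proj = 0 ↔ ∃ y, d y = x
  /-- the homology in degree one is zero -/
  exact1 : Function.Injective d

attribute [instance] Trees.act0 Trees.act1

/-- The `G`-set `Z` has no finite orbits. -/
def NoFiniteOrbit (G : Type) [Group G] (Z : Type) [MulAction G Z] : Prop :=
  ∀ z : Z, (MulAction.orbit G z).Infinite

/-- The subgroup `C` is amenable or of exponent zero in `G`: for every finite `S ⊆ G` and `ε > 0`
the number of the elements of each coset `g C` in `S^m = {s_1 ⋯ s_m | s_i ∈ S}`, more generally of
the `h ∈ S^m` with `h z = w`, where `z, w ∈ G/C`, is at most `K e^(ε m)`. -/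
def SmallSub {G : Type} [Group G] (C : Subgroup G) : Prop :=
  IsAmenable C ∨ ∀ (S : Set G) (ε : ℝ), S.Finite → 0 < ε → Thin S ε (G ⧸ C)

/-- All orbits of the `G`-set `Z` are infinite, and its stabilisers are amenable or of exponent
zero in `G`. -/
def SmallSet (G : Type) [Group G] (Z : Type) [MulAction G Z] : Prop :=
  NoFiniteOrbit G Z ∧ ∀ z : Z, SmallSub (MulAction.stabilizer G z)

/-- The smallest class of `G`-sets which contains the sets `Z` with `SmallSet G Z`, and which
contains a `G`-set `Z` if there is an equivariant family of trees `T_z`, `z ∈ Z`, such that the set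
of the vertices of all these trees is in the class and the set of the edges is a set as in
`SmallSet`. So the stabilisers have finite hierarchies over amenable groups (or groups of exponent
zero): they are such groups, or act on trees with edge stabilisers of this kind and with vertex
stabilisers which have again such a hierarchy. -/
inductive Hierarchy (G : Type) [Group G] : (Z : Type) → MulAction G Z → Prop
  | small (Z : Type) (a : MulAction G Z) (h : SmallSet G Z) : Hierarchy G Z a
  | trees (Z : Type) (a : MulAction G Z) (T : Trees G Z) (h0 : Hierarchy G T.T0 T.act0)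
      (h1 : SmallSet G T.T1) : Hierarchy G Z a

end Pool.Agent.Helper80.TD
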