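import Pool.Agent.Helper80.SE.Comp2
import Pool.Agent.Helper80.TD.Stmt

/-!
Nonzero cohomology with coefficients in a permutation module, from an action on an acyclic
two-dimensional complex.
-/

set_option autoImplicit false

open scoped Pointwise

namespace Pool.Agent.Helper80.TD

open Pool.Agent.H919R4.ZS (FinRes augm toRed)
open Pool.Agent.Helper80.SE

noncomputable section

variable {G : Type} [Group G]

/-- the action on rational chains -/
def rhoQ (G : Type) [Group G] (E : Type) [MulAction G E] : G →* AddMonoid.End (E →₀ ℚ) where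
  toFun g := Finsupp.mapDomain.addMonoidHom (g • ·)
  map_one' := by
    refine AddMonoidHom.ext fun x => ?_
    change x.mapDomain ((1 : G) • ·) = x
    simp only [one_smul]
    exact Finsupp.mapDomain_id
  map_mul' g h := by
    refine AddMonoidHom.ext fun x => ?_
    change x.mapDomain ((g * h) • ·) = (x.mapDomain (h • ·)).mapDomain (g • ·)
    rw [← Finsupp.mapDomain_comp]
    congr 1
    funext e
    exact mul_smul g h e

lemma rhoQ_apply {E : Type} [MulAction G E] (g : G) (x : E →₀ ℚ) :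
    rhoQ G E g x = x.mapDomain (g • ·) := rfl

variable (X : FinRes G)

/-- a cochain of the resolution with values in rational chains is a cocycle -/
def Cocyc {E : Type} [MulAction G E] (p : ℕ) (v : Fin (X.n p) → E →₀ ℚ) : Prop :=
  ∀ k, liftB (rhoQ G E) v (X.d p k) = 0

/-- the coboundary -/
def cb {E : Type} [MulAction G E] (p : ℕ) (v : Fin (X.n p) → E →₀ ℚ)
    (k : Fin (X.n (p + 1))) : E →₀ ℚ := liftB (rhoQ G E) v (X.d p k)

lemma liftB_cb {E : Type} [MulAction G E] (p : ℕ) (v : Fin (X.n p) → E →₀ ℚ)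
    (z : Fin (X.n (p + 1)) → MonoidAlgebra ℤ G) :
    liftB (rhoQ G E) (cb X p v) z = liftB (rhoQ G E) v (dX X p z) := by
  rw [dX_apply, liftB_vecMul, liftB_apply]
  rfl

lemma row_eq (p : ℕ) (k : Fin (X.n (p + 1))) :
    (X.d p k : Fin (X.n p) → MonoidAlgebra ℤ G) = dX X p (Pi.single k 1) := by
  classical
  rw [dX_apply, Matrix.single_one_vecMul]
  rfl

/-- the augmentation of rational chains -/
def augE (V : Type) : (V →₀ ℚ) →+ ℚ where
  toFun x := x.sum fun _ a => a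
  map_zero' := Finsupp.sum_zero_index
  map_add' _ _ := Finsupp.sum_add_index' (fun _ => rfl) (fun _ _ _ => rfl)

lemma augE_apply {V : Type} (x : V →₀ ℚ) : augE V x = x.sum fun _ a => a := rfl

lemma augE_single {V : Type} (v : V) (q : ℚ) : augE V (Finsupp.single v q) = q := by
  rw [augE_apply, Finsupp.sum_single_index rfl]

lemma augE_map {V : Type} [MulAction G V] (g : G) (x : V →₀ ℚ) :
    augE V (rhoQ G V g x) = augE V x := by
  rw [rhoQ_apply, augE_apply, augE_apply]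
  exact Finsupp.sum_mapDomain_index (fun _ => rfl) (fun _ _ _ => rfl)

lemma augE_ring {V : Type} [MulAction G V] (a : MonoidAlgebra ℤ G) (x : V →₀ ℚ) :
    augE V (ring (rhoQ G V) a x) = augm G a • augE V x := by
  refine MonoidAlgebra.induction_linear a ?_ ?_ ?_
  · simp
  · intro x y hx hy
    rw [map_add, map_add, end_add, map_add, hx, hy, add_smul]
  · intro g m
    rw [ring_single, augm_single, map_zsmul, augE_map]

variable (Y : Complex2 G)

lemma d1_ring (a : MonoidAlgebra ℤ G) (x : Y.E →₀ ℚ) :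
    Y.d1 (ring (rhoQ G Y.E) a x) = ring (rhoQ G Y.V) a (Y.d1 x) :=
  ring_comm (rhoQ G Y.E) (rhoQ G Y.V) Y.d1.toAddMonoidHom (fun g a => Y.equi1 g a) a x

lemma d2_ring (a : MonoidAlgebra ℤ G) (x : Y.F →₀ ℚ) :
    Y.d2 (ring (rhoQ G Y.F) a x) = ring (rhoQ G Y.E) a (Y.d2 x) :=
  ring_comm (rhoQ G Y.F) (rhoQ G Y.E) Y.d2.toAddMonoidHom (fun g a => Y.equi2 g a) a x

lemma d1_liftB {m : ℕ} (β : Fin m → Y.E →₀ ℚ) (z : Fin m → MonoidAlgebra ℤ G) :
    Y.d1 (liftB (rhoQ G Y.E) β z) = liftB (rhoQ G Y.V) (fun j => Y.d1 (β j)) z := by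
  rw [liftB_apply, liftB_apply, map_sum]
  exact Finset.sum_congr rfl fun j _ => d1_ring Y _ _

lemma d2_liftB {m : ℕ} (β : Fin m → Y.F →₀ ℚ) (z : Fin m → MonoidAlgebra ℤ G) :
    Y.d2 (liftB (rhoQ G Y.F) β z) = liftB (rhoQ G Y.E) (fun j => Y.d2 (β j)) z := by
  rw [liftB_apply, liftB_apply, map_sum]
  exact Finset.sum_congr rfl fun j _ => d2_ring Y _ _

lemma liftB_sub {A : Type} [AddCommGroup A] (ρ : G →* AddMonoid.End A) {m : ℕ}
    (β γ : Fin m → A) (z : Fin m → MonoidAlgebra ℤ G) :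
    liftB ρ (fun j => β j - γ j) z = liftB ρ β z - liftB ρ γ z := by
  simp only [liftB_apply, map_sub, Finset.sum_sub_distrib]

/-- the nonvanishing statement -/
theorem exists_class : (∃ v : Fin (X.n 0) → Y.V →₀ ℚ, cb X 0 v = 0 ∧ v ≠ 0) ∨
    (∃ v : Fin (X.n 1) → Y.E →₀ ℚ, cb X 1 v = 0 ∧ ∀ w, cb X 0 w ≠ v) ∨
    (∃ v : Fin (X.n 2) → Y.F →₀ ℚ, cb X 2 v = 0 ∧ ∀ w, cb X 1 w ≠ v) := by
  classical
  obtain ⟨v0⟩ := Y.nonempty
  -- the chain map in degree zero
  set β0 : Fin (X.n 0) → Y.V →₀ ℚ := fun j => Finsupp.single v0 (X.aug j : ℚ) with hβ0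
  have haug : ∀ z, augE Y.V (liftB (rhoQ G Y.V) β0 z) = (augX X z : ℚ) := by
    intro z
    rw [liftB_apply, map_sum, augX_apply]
    push_cast
    refine Finset.sum_congr rfl fun j _ => ?_
    rw [augE_ring, hβ0, augE_single, zsmul_eq_mul]
  -- degree one
  have h1 : ∀ j : Fin (X.n 1), ∃ y, Y.d1 y = liftB (rhoQ G Y.V) β0 (X.d 0 j) := by
    intro j
    refine (Y.exact0 _).1 ?_
    rw [← augE_apply, haug, row_eq, augX_apply, dX_apply, augm_d_zero, Int.cast_zero]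
  choose β1 hβ1 using h1
  have hd1 : ∀ z, Y.d1 (liftB (rhoQ G Y.E) β1 z) = liftB (rhoQ G Y.V) β0 (dX X 0 z) := by
    intro z
    rw [d1_liftB, ← liftB_cb]
    congr 1
    rw [funext hβ1]
    rfl
  -- degree two
  have h2 : ∀ j : Fin (X.n 2), ∃ y, Y.d2 y = liftB (rhoQ G Y.E) β1 (X.d 1 j) := by
    intro j
    refine (Y.exact1 _).1 ?_
    rw [hd1, row_eq, dX_dX, map_zero]
  choose β2 hβ2 using h2
  have hd2 : ∀ z, Y.d2 (liftB (rhoQ G Y.F) β2 z) = liftB (rhoQ G Y.E) β1 (dX X 1 z) := by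
    intro z
    rw [d2_liftB, ← liftB_cb]
    congr 1
    rw [funext hβ2]
    rfl
  by_cases hF : ∃ w, cb X 1 w = β2
  swap
  · refine Or.inr (Or.inr ⟨β2, ?_, fun w hw => hF ⟨w, hw⟩⟩)
    funext k
    apply Y.exact2
    change Y.d2 (liftB (rhoQ G Y.F) β2 (X.d 2 k)) = Y.d2 0
    rw [hd2, row_eq, dX_dX, map_zero, map_zero]
  obtain ⟨w, hw⟩ := hF
  set γ1 : Fin (X.n 1) → Y.E →₀ ℚ := fun j => β1 j - Y.d2 (w j) with hγ1
  have hγ : cb X 1 γ1 = 0 := by
    funext k
    change liftB (rhoQ G Y.E) γ1 (X.d 1 k) = 0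
    rw [hγ1, liftB_sub, ← d2_liftB]
    have e : liftB (rhoQ G Y.F) w (X.d 1 k) = β2 k := congrFun hw k
    rw [e, ← hβ2, sub_self]
  by_cases hE : ∃ u, cb X 0 u = γ1
  swap
  · exact Or.inr (Or.inl ⟨γ1, hγ, fun u hu => hE ⟨u, hu⟩⟩)
  obtain ⟨u, hu⟩ := hE
  refine Or.inl ⟨fun j => β0 j - Y.d1 (u j), ?_, ?_⟩
  · funext k
    change liftB (rhoQ G Y.V) (fun j => β0 j - Y.d1 (u j)) (X.d 0 k) = 0
    rw [liftB_sub, ← d1_liftB]
    have e : liftB (rhoQ G Y.E) u (X.d 0 k) = γ1 k := congrFun hu k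
    rw [e, hγ1, map_sub, hβ1]
    have e2 : Y.d1 (Y.d2 (w k)) = 0 := (Y.exact1 _).2 ⟨_, rfl⟩
    rw [e2, sub_zero, sub_self]
  · intro h
    have e1 : liftB (rhoQ G Y.V) (fun j => β0 j - Y.d1 (u j)) (bp X) = 0 := by
      rw [h]
      simp [liftB_apply]
    rw [liftB_sub, ← d1_liftB] at e1
    have e2 := congrArg (augE Y.V) e1
    rw [map_sub, haug, bp_spec, map_zero] at e2
    have e3 : augE Y.V (Y.d1 (liftB (rhoQ G Y.E) u (bp X))) = 0 := (Y.exact0 _).2 ⟨_, rfl⟩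
    rw [e3] at e2
    norm_num at e2

end

end Pool.Agent.Helper80.TD
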