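import Pool.Agent.Helper80.TD.Orb

/-!
Zero in the spectrum from actions on acyclic two-dimensional complexes: conclusion.
-/

set_option autoImplicit false

open scoped Pointwise

namespace Pool.Agent.Helper80.TD

open Pool.Agent.H919R4.ZS (FinRes augm toRed)
open Pool.Agent.H496R3.ZS (IsAmenable)
open Pool.Agent.Helper80.SE
open Pool.Agent.X270.NT

noncomputable section

variable {G : Type} [Group G] (X : FinRes G)

lemma no_invariants {E : Type} [MulAction G E] (hE : ∀ e : E, (MulAction.orbit G e).Infinite)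
    (v : Fin (X.n 0) → E →₀ ℚ) (hv : cb X 0 v = 0) : v = 0 := by
  classical
  have h0 : ∀ z, augX X z = 0 → liftB (rhoQ G E) v z = 0 := by
    intro z hz
    obtain ⟨y, hy⟩ := (X.exact_zero z).1 hz
    have h1 : dX X 0 y = z := hy
    rw [← h1, ← liftB_cb, hv]
    simp [liftB_apply]
  set m : E →₀ ℚ := liftB (rhoQ G E) v (bp X) with hm
  have hinv : ∀ g : G, rhoQ G E g m = m := by
    intro g
    rw [hm, ← liftB_trX, ← sub_eq_zero, ← map_sub]
    exact h0 _ (by rw [map_sub, augX_trX, sub_self])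
  have hm0 : m = 0 := by
    refine Finsupp.ext fun e => ?_
    by_contra hne
    refine hE e (m.support.finite_toSet.subset ?_)
    rintro _ ⟨g, rfl⟩
    have h1 : m (g • e) = m e := by
      conv_lhs => rw [← hinv g]
      rw [rhoQ_apply]
      exact Finsupp.mapDomain_apply (MulAction.injective g) m e
    rw [Finset.mem_coe, Finsupp.mem_support_iff]
    change m (g • e) ≠ 0
    rw [h1]
    exact hne
  funext j
  have h1 : liftB (rhoQ G E) v (Pi.single j 1) = v j := by
    rw [liftB_apply, Finset.sum_eq_single j]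
    · rw [Pi.single_eq_same, map_one]
      rfl
    · intro k _ hk
      rw [Pi.single_eq_of_ne hk, map_zero]
      rfl
    · intro h; exact absurd (Finset.mem_univ j) h
  have h2 : liftB (rhoQ G E) v (Pi.single j 1 - X.aug j • bp X) = 0 := by
    refine h0 _ ?_
    rw [map_sub, map_zsmul, bp_spec, augX_apply, Finset.sum_eq_single j]
    · rw [Pi.single_eq_same, map_one]
      simp
    · intro k _ hk
      rw [Pi.single_eq_of_ne hk, map_zero, zero_mul]
    · intro h; exact absurd (Finset.mem_univ j) h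
  rw [map_sub, map_zsmul, h1, ← hm, hm0, smul_zero, sub_zero] at h2
  exact h2

lemma slow_one {Z : Type} [MulAction G Z] (S : Set G) {ε : ℝ} (hε : 0 < ε) :
    W.SlowWeight S ε (fun _ : Z => (1 : ℝ)) where
  pos _ := one_pos
  slow _ _ _ := by
    rw [mul_one]
    exact Real.one_le_exp hε.le
  quasi _ := ⟨1, fun _ => by rw [mul_one]⟩

/-- the conclusion from a class on an infinite orbit with small stabiliser -/
lemma of_class {E : Type} [MulAction G E] (hE : ∀ e : E, (MulAction.orbit G e).Infinite)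
    (hs : ∀ e : E, SmallSub (MulAction.stabilizer G e)) (p : ℕ) (hp : p + 1 ≤ 2)
    (v : Fin (X.n (p + 1)) → E →₀ ℚ) (hv : cb X (p + 1) v = 0) (hne : ∀ w, cb X p w ≠ v) :
    ∃ i ≤ 2, Nontrivial (X.homology (toRed G) i) := by
  obtain ⟨σ, hσ⟩ := exists_orbit X p v hv hne
  refine T.finalI X fun S ε hS hε => ?_
  refine ⟨MulAction.stabilizer G σ, fun _ => 1, slow_one S hε, ?_, ?_, p + 1, hp, hσ⟩
  · intro hsum
    have h1 : (Set.univ : Set (G ⧸ MulAction.stabilizer G σ)).Finite := by
      have h2 := (sq_iff_finite (fun _ : G ⧸ MulAction.stabilizer G σ => (1 : ℤ))).1 (by simpa)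
      refine h2.subset fun z _ => ?_
      simp
    have h3 := h1.image (pm G σ)
    refine hE σ (h3.subset ?_)
    intro e he
    obtain ⟨z, rfl⟩ := exists_pm he
    exact ⟨z, Set.mem_univ z, rfl⟩
  · rcases hs σ with h | h
    · exact Or.inl h
    · exact Or.inr (h S ε hS hε)

section trees

variable {E : Type} [MulAction G E] (T : Trees G E)

/-- the projection of rational chains -/
def prQ : (T.T0 →₀ ℚ) →+ (E →₀ ℚ) := Finsupp.mapDomain.addMonoidHom T.proj

lemma prQ_apply (x : T.T0 →₀ ℚ) : prQ T x = x.mapDomain T.proj := rfl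

lemma prQ_rho (g : G) (x : T.T0 →₀ ℚ) : prQ T (rhoQ G T.T0 g x) = rhoQ G E g (prQ T x) := by
  rw [prQ_apply, prQ_apply, rhoQ_apply, rhoQ_apply, ← Finsupp.mapDomain_comp,
    ← Finsupp.mapDomain_comp]
  congr 1
  funext t
  exact T.proj_equi g t

lemma prQ_liftB {m : ℕ} (β : Fin m → T.T0 →₀ ℚ) (z : Fin m → MonoidAlgebra ℤ G) :
    prQ T (liftB (rhoQ G T.T0) β z) = liftB (rhoQ G E) (fun j => prQ T (β j)) z := by
  rw [liftB_apply, liftB_apply, map_sum]
  exact Finset.sum_congr rfl fun j _ =>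
    ring_comm (rhoQ G T.T0) (rhoQ G E) (prQ T) (fun g a => prQ_rho T g a) _ _

lemma dT_liftB {m : ℕ} (β : Fin m → T.T1 →₀ ℚ) (z : Fin m → MonoidAlgebra ℤ G) :
    T.d (liftB (rhoQ G T.T1) β z) = liftB (rhoQ G T.T0) (fun j => T.d (β j)) z := by
  rw [liftB_apply, liftB_apply, map_sum]
  exact Finset.sum_congr rfl fun j _ =>
    ring_comm (rhoQ G T.T1) (rhoQ G T.T0) T.d.toAddMonoidHom (fun g a => T.equi g a) _ _

lemma prQ_surj : Function.Surjective (prQ T) := Finsupp.mapDomain_surjective T.proj_surj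

/-- a class with coefficients in `ℚ[E]` lifts to the trees -/
theorem lift_class (p : ℕ) (v : Fin (X.n (p + 1)) → E →₀ ℚ) (hv : cb X (p + 1) v = 0)
    (hne : ∀ w, cb X p w ≠ v) :
    (∃ u : Fin (X.n (p + 1)) → T.T0 →₀ ℚ, cb X (p + 1) u = 0 ∧ ∀ w, cb X p w ≠ u) ∨
    (∃ u : Fin (X.n (p + 2)) → T.T1 →₀ ℚ, cb X (p + 2) u = 0 ∧ ∀ w, cb X (p + 1) w ≠ u) := by
  classical
  choose u hu using fun j => prQ_surj T (v j)
  have hy : ∀ k, ∃ y, T.d y = cb X (p + 1) u k := by
    intro k
    refine (T.exact0 _).1 ?_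
    rw [← prQ_apply]
    change prQ T (liftB (rhoQ G T.T0) u (X.d (p + 1) k)) = 0
    rw [prQ_liftB, funext hu]
    exact congrFun hv k
  choose y hy using hy
  by_cases hw : ∃ w, cb X (p + 1) w = y
  · obtain ⟨w, hw⟩ := hw
    refine Or.inl ⟨fun j => u j - T.d (w j), ?_, ?_⟩
    · funext k
      change liftB (rhoQ G T.T0) (fun j => u j - T.d (w j)) (X.d (p + 1) k) = 0
      rw [liftB_sub, ← dT_liftB]
      have e : liftB (rhoQ G T.T1) w (X.d (p + 1) k) = y k := congrFun hw k
      rw [e, hy]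
      exact sub_self _
    · intro s hs
      refine hne (fun j => prQ T (s j)) ?_
      funext k
      change liftB (rhoQ G E) (fun j => prQ T (s j)) (X.d p k) = v k
      rw [← prQ_liftB]
      have e : liftB (rhoQ G T.T0) s (X.d p k) = u k - T.d (w k) := congrFun hs k
      have e2 : prQ T (T.d (w k)) = 0 := (T.exact0 _).2 ⟨_, rfl⟩
      rw [e, map_sub, hu, e2, sub_zero]
  · refine Or.inr ⟨y, ?_, fun w h => hw ⟨w, h⟩⟩
    funext k
    apply T.exact1
    change T.d (liftB (rhoQ G T.T1) y (X.d (p + 2) k)) = T.d 0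
    rw [dT_liftB, funext hy, map_zero]
    rw [liftB_cb, row_eq, dX_dX, map_zero]

end trees

/-- the conclusion from a class of degree one on a set with a hierarchy -/
theorem of_hierarchy {E : Type} (a : MulAction G E) (h : Hierarchy G E a) :
    ∀ v : Fin (X.n 1) → E →₀ ℚ, cb X 1 v = 0 → (∀ w, cb X 0 w ≠ v) →
      ∃ i ≤ 2, Nontrivial (X.homology (toRed G) i) := by
  induction h with
  | small Z a h =>
    intro v hv hne
    exact of_class X h.1 h.2 0 (by norm_num) v hv hne
  | trees Z a T h0 h1 ih =>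
    intro v hv hne
    rcases lift_class X T 0 v hv hne with ⟨u, hu, hune⟩ | ⟨u, hu, hune⟩
    · exact ih u hu hune
    · exact of_class X h1.1 h1.2 1 (by norm_num) u hu hune

theorem final (Y : Complex2 G) (hV : NoFiniteOrbit G Y.V) (hE : Hierarchy G Y.E Y.actE)
    (hF : SmallSet G Y.F) : ∃ i ≤ 2, Nontrivial (X.homology (toRed G) i) := by
  rcases exists_class X Y with ⟨v, hv, hv0⟩ | ⟨v, hv, hne⟩ | ⟨v, hv, hne⟩
  · exact absurd (no_invariants X hV v hv) hv0
  · exact of_hierarchy X Y.actE hE v hv hne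
  · exact of_class X hF.1 hF.2 1 (by norm_num) v hv hne

end

end Pool.Agent.Helper80.TD
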