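import Pool.Agent.Helper80.TD.Alg
import Pool.Graph.R_pool_sql_team_seeded_64922ed1.X270.NT.Circ2

/-!
From rational chains to integer valued functions on coset spaces.
-/

set_option autoImplicit false

open scoped Pointwise

namespace Pool.Agent.Helper80.TD

open Pool.Agent.H919R4.ZS (FinRes augm toRed)
open Pool.Agent.Helper80.SE
open Pool.Agent.X270.NT

noncomputable section

variable {G : Type} [Group G]

lemma ring_rhoQ_apply {E : Type} [MulAction G E] (a : MonoidAlgebra ℤ G) (x : E →₀ ℚ) (e : E) :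
    ring (rhoQ G E) a x e = ∑ g ∈ a.coeff.support, (a.coeff g : ℚ) * x (g⁻¹ • e) := by
  change (MonoidAlgebra.lift ℤ (AddMonoid.End (E →₀ ℚ)) G (rhoQ G E)) a x e = _
  rw [MonoidAlgebra.lift_apply, Finsupp.sum, end_sum, Finsupp.finsetSum_apply]
  refine Finset.sum_congr rfl fun g _ => ?_
  change (a.coeff g • (x.mapDomain (g • ·))) e = _
  rw [Finsupp.smul_apply, zsmul_eq_mul]
  congr 1
  have h1 : e = g • (g⁻¹ • e) := (smul_inv_smul g e).symm
  conv_lhs => rw [h1]
  exact Finsupp.mapDomain_apply (MulAction.injective g) x (g⁻¹ • e)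

variable (X : FinRes G)

lemma cast_cobd {E : Type} [MulAction G E] (p : ℕ) (N : ℚ) (v : Fin (X.n p) → E →₀ ℚ)
    (V : Fin (X.n p) → E → ℤ) (h : ∀ j e, (V j e : ℚ) = N * v j e) (k : Fin (X.n (p + 1))) (e : E) :
    (I.cobd X p V k e : ℚ) = N * cb X p v k e := by
  change ((∑ j, ∑ g ∈ (X.d p k j).coeff.support, (X.d p k j).coeff g * V j (g⁻¹ • e) : ℤ) : ℚ) =
    N * (liftB (rhoQ G E) v (X.d p k)) e
  rw [liftB_apply, Finsupp.finsetSum_apply, Finset.mul_sum]
  push_cast
  refine Finset.sum_congr rfl fun j _ => ?_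
  rw [ring_rhoQ_apply, Finset.mul_sum]
  refine Finset.sum_congr rfl fun g _ => ?_
  rw [h]
  ring

section pull

variable {E Z : Type} [MulAction G E] [MulAction G Z] (π : Z → E)
  (hπ : ∀ (g : G) (z : Z), π (g • z) = g • π z)

include hπ

lemma cobd_pull (p : ℕ) (V : Fin (X.n p) → E → ℤ) (k : Fin (X.n (p + 1))) (z : Z) :
    I.cobd X p (fun j z => V j (π z)) k z = I.cobd X p V k (π z) := by
  change ∑ j, ∑ g ∈ (X.d p k j).coeff.support, (X.d p k j).coeff g * V j (π (g⁻¹ • z)) =
    ∑ j, ∑ g ∈ (X.d p k j).coeff.support, (X.d p k j).coeff g * V j (g⁻¹ • π z)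
  simp only [hπ]

lemma cobd_extend (hinj : Function.Injective π) (p : ℕ) (W : Fin (X.n p) → Z → ℤ)
    (k : Fin (X.n (p + 1))) (e : E) :
    I.cobd X p (fun j => Function.extend π (W j) 0) k e =
      Function.extend π (I.cobd X p W k) 0 e := by
  change ∑ j, ∑ g ∈ (X.d p k j).coeff.support,
    (X.d p k j).coeff g * Function.extend π (W j) 0 (g⁻¹ • e) = _
  by_cases he : ∃ z, π z = e
  · obtain ⟨z, rfl⟩ := he
    rw [hinj.extend_apply]
    change _ = ∑ j, ∑ g ∈ (X.d p k j).coeff.support, (X.d p k j).coeff g * W j (g⁻¹ • z)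
    refine Finset.sum_congr rfl fun j _ => Finset.sum_congr rfl fun g _ => ?_
    rw [← hπ, hinj.extend_apply]
  · rw [Function.extend_apply' _ _ _ he]
    refine Finset.sum_eq_zero fun j _ => Finset.sum_eq_zero fun g _ => ?_
    have h1 : ¬ ∃ z, π z = g⁻¹ • e := by
      rintro ⟨z, hz⟩
      exact he ⟨g • z, by rw [hπ, hz, smul_inv_smul]⟩
    rw [Function.extend_apply' _ _ _ h1]
    simp

end pull

lemma cobd_sum {E ι : Type} [MulAction G E] (p : ℕ) (R : Finset ι)
    (W : ι → Fin (X.n p) → E → ℤ) (k : Fin (X.n (p + 1))) (e : E) :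
    I.cobd X p (fun j e => ∑ σ ∈ R, W σ j e) k e = ∑ σ ∈ R, I.cobd X p (W σ) k e := by
  change ∑ j, ∑ g ∈ (X.d p k j).coeff.support,
    (X.d p k j).coeff g * ∑ σ ∈ R, W σ j (g⁻¹ • e) =
    ∑ σ ∈ R, ∑ j, ∑ g ∈ (X.d p k j).coeff.support, (X.d p k j).coeff g * W σ j (g⁻¹ • e)
  rw [Finset.sum_comm]
  refine Finset.sum_congr rfl fun j _ => ?_
  rw [Finset.sum_comm]
  refine Finset.sum_congr rfl fun g _ => ?_
  rw [Finset.mul_sum]

/-- integer valued square summable functions have finite support -/
lemma sq_iff_finite {Z : Type} (f : Z → ℤ) :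
    (Summable fun z => (f z : ℝ) ^ 2 * 1) ↔ (Function.support f).Finite := by
  constructor
  · intro h
    have h1 := h.tendsto_cofinite_zero
    have h2 : ∀ᶠ z in Filter.cofinite, (f z : ℝ) ^ 2 * 1 < 1 :=
      h1.eventually (gt_mem_nhds one_pos)
    refine (Filter.eventually_cofinite.1 h2).subset ?_
    intro z hz hlt
    apply hz
    have h3 : (f z : ℝ) ^ 2 < 1 := by simpa using hlt
    have h4 : (f z) ^ 2 < 1 := by exact_mod_cast h3
    have h5 : f z = 0 := by
      by_contra hne
      have : 1 ≤ (f z) ^ 2 := by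
        have := Int.one_le_abs hne
        nlinarith [sq_abs (f z)]
      omega
    exact h5
  · intro h
    refine summable_of_hasFiniteSupport ?_
    refine h.subset ?_
    intro z hz hz0
    apply hz
    simp [hz0]

/-- the representatives of the orbits -/
def rep (G : Type) [Group G] {E : Type} [MulAction G E] (e : E) : E :=
  (Quotient.out (Quotient.mk (MulAction.orbitRel G E) e))

lemma rep_mem {E : Type} [MulAction G E] (e : E) : e ∈ MulAction.orbit G (rep G e) := by
  have h1 : (MulAction.orbitRel G E).r (rep G e) e :=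
    Quotient.exact (Quotient.out_eq (Quotient.mk (MulAction.orbitRel G E) e))
  have h2 : rep G e ∈ MulAction.orbit G e := h1
  exact MulAction.mem_orbit_symm.1 h2

lemma rep_eq {E : Type} [MulAction G E] {e f : E} (h : e ∈ MulAction.orbit G f) :
    rep G e = rep G f := by
  unfold rep
  congr 1
  exact Quotient.sound h

lemma rep_rep {E : Type} [MulAction G E] (e : E) : rep G (rep G e) = rep G e :=
  (rep_eq (rep_mem e)).symm

/-- the map from the coset space -/
def pm (G : Type) [Group G] {E : Type} [MulAction G E] (σ : E) :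
    G ⧸ MulAction.stabilizer G σ → E := MulAction.ofQuotientStabilizer G σ

lemma pm_smul {E : Type} [MulAction G E] (σ : E) (g : G) (z : G ⧸ MulAction.stabilizer G σ) :
    pm G σ (g • z) = g • pm G σ z := MulAction.ofQuotientStabilizer_smul G σ g z

lemma pm_injective {E : Type} [MulAction G E] (σ : E) : Function.Injective (pm G σ) :=
  MulAction.injective_ofQuotientStabilizer G σ

lemma exists_pm {E : Type} [MulAction G E] {σ e : E} (h : e ∈ MulAction.orbit G σ) :
    ∃ z, pm G σ z = e := by
  obtain ⟨g, rfl⟩ := h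
  exact ⟨(g : G ⧸ MulAction.stabilizer G σ), rfl⟩

lemma pm_mem {E : Type} [MulAction G E] (σ : E) (z : G ⧸ MulAction.stabilizer G σ) :
    pm G σ z ∈ MulAction.orbit G σ := by
  obtain ⟨g, rfl⟩ := QuotientGroup.mk_surjective z
  exact ⟨g, rfl⟩

/-- a common denominator -/
lemma exists_denom {ι : Type} [Fintype ι] {E : Type} (v : ι → E →₀ ℚ) :
    ∃ N : ℤ, N ≠ 0 ∧ ∃ V : ι → E → ℤ, ∀ j e, (V j e : ℚ) = N * v j e := by
  classical
  set M : ℕ := ∏ j, ∏ e ∈ (v j).support, (v j e).den with hM
  refine ⟨M, ?_, ?_⟩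
  · rw [Int.natCast_ne_zero, hM]
    exact Finset.prod_ne_zero_iff.2 fun j _ => Finset.prod_ne_zero_iff.2 fun e _ =>
      (v j e).den_ne_zero
  · have h : ∀ j e, ∃ z : ℤ, (z : ℚ) = (M : ℤ) * v j e := by
      intro j e
      by_cases he : v j e = 0
      · exact ⟨0, by rw [he]; simp⟩
      · have h1 : (v j e).den ∣ M := by
          refine dvd_trans ?_ (Finset.dvd_prod_of_mem _ (Finset.mem_univ j))
          exact Finset.dvd_prod_of_mem (fun e => (v j e).den) (Finsupp.mem_support_iff.2 he)
        obtain ⟨m, hm⟩ := h1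
        refine ⟨m * (v j e).num, ?_⟩
        rw [hm]
        push_cast
        have h2 : ((v j e).den : ℚ) * v j e = (v j e).num := Rat.den_mul_eq_num _
        rw [← h2]
        ring
    choose V hV using h
    exact ⟨V, hV⟩

/-- a rational class gives an integral class on an orbit -/
theorem exists_orbit {E : Type} [MulAction G E] (p : ℕ) (v : Fin (X.n (p + 1)) → E →₀ ℚ)
    (hv : cb X (p + 1) v = 0) (hne : ∀ w, cb X p w ≠ v) :
    ∃ σ : E, I.CohNonzero X (fun _ : G ⧸ MulAction.stabilizer G σ => (1 : ℝ)) (p + 1) := by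
  classical
  by_contra hcon
  push Not at hcon
  obtain ⟨N, hN, V, hV⟩ := exists_denom v
  have hVc : I.cobd X (p + 1) V = 0 := by
    funext k e
    have h1 := cast_cobd X (p + 1) (N : ℚ) v V hV k e
    rw [hv, Pi.zero_apply, Finsupp.zero_apply, mul_zero] at h1
    exact_mod_cast h1
  have hfin : ∀ j, (Function.support (V j)).Finite := by
    intro j
    refine (v j).support.finite_toSet.subset ?_
    intro e he
    rw [Finset.mem_coe, Finsupp.mem_support_iff]
    intro h0
    apply he
    have h1 := hV j e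
    rw [h0, mul_zero] at h1
    exact_mod_cast h1
  have key : ∀ σ : E, ∃ W : Fin (X.n p) → (G ⧸ MulAction.stabilizer G σ) → ℤ,
      (∀ j, (Function.support (W j)).Finite) ∧
      ∀ k z, I.cobd X p W k z = V k (pm G σ z) := by
    intro σ
    by_contra hW
    push Not at hW
    refine hcon σ ⟨fun j z => V j (pm G σ z), ?_, ?_, ?_⟩
    · intro j
      refine (sq_iff_finite _).2 ?_
      exact (hfin j).preimage (pm_injective σ).injOn
    · funext k z
      rw [cobd_pull X (pm G σ) (pm_smul σ), hVc]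
      rfl
    · intro W hWs hWe
      obtain ⟨k, z, hkz⟩ := hW W fun j => (sq_iff_finite _).1 (hWs j)
      exact hkz (congrFun (congrFun hWe k) z)
  choose W hWfin hW using key
  set R : Finset E := (Finset.univ.biUnion fun j => (v j).support).image (rep G) with hR
  set w : Fin (X.n p) → E → ℤ := fun j e => ∑ σ ∈ R, Function.extend (pm G σ) (W σ j) 0 e with hw
  have hwfin : ∀ j, (Function.support (w j)).Finite := by
    intro j
    have h1 : Function.support (w j) ⊆ ⋃ σ ∈ R, pm G σ '' Function.support (W σ j) := by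
      intro e he
      obtain ⟨σ, hσ, hne0⟩ := Finset.exists_ne_zero_of_sum_ne_zero he
      refine Set.mem_iUnion₂.2 ⟨σ, hσ, ?_⟩
      by_cases h2 : ∃ z, pm G σ z = e
      · obtain ⟨z, rfl⟩ := h2
        rw [(pm_injective σ).extend_apply] at hne0
        exact ⟨z, hne0, rfl⟩
      · rw [Function.extend_apply' _ _ _ h2] at hne0
        exact absurd rfl hne0
    exact (R.finite_toSet.biUnion fun σ _ => (hWfin σ j).image _).subset h1
  have hwe : ∀ k e, I.cobd X p w k e = V k e := by
    intro k e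
    rw [hw, cobd_sum]
    have h1 : ∀ σ ∈ R, I.cobd X p (fun j => Function.extend (pm G σ) (W σ j) 0) k e =
        if σ = rep G e then V k e else 0 := by
      intro σ hσ
      rw [cobd_extend X (pm G σ) (pm_smul σ) (pm_injective σ)]
      have hσr : rep G σ = σ := by
        obtain ⟨f, _, rfl⟩ := Finset.mem_image.1 hσ
        exact rep_rep f
      by_cases h2 : ∃ z, pm G σ z = e
      · obtain ⟨z, rfl⟩ := h2
        rw [(pm_injective σ).extend_apply, if_pos, hW]
        rw [rep_eq (pm_mem σ z), hσr]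
      · rw [Function.extend_apply' _ _ _ h2, if_neg, Pi.zero_apply]
        intro h3
        apply h2
        rw [h3]
        exact exists_pm (rep_mem e)
    rw [Finset.sum_congr rfl h1, Finset.sum_ite_eq']
    by_cases h4 : rep G e ∈ R
    · rw [if_pos h4]
    · rw [if_neg h4]
      symm
      have h5 : v k e = 0 := by
        by_contra h6
        exact h4 (Finset.mem_image_of_mem _ (Finset.mem_biUnion.2
          ⟨k, Finset.mem_univ _, Finsupp.mem_support_iff.2 h6⟩))
      have h7 := hV k e
      rw [h5, mul_zero] at h7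
      exact_mod_cast h7
  have hNq : (N : ℚ) ≠ 0 := by exact_mod_cast hN
  set w' : Fin (X.n p) → E →₀ ℚ := fun j => Finsupp.ofSupportFinite
    (fun e => (N : ℚ)⁻¹ * (w j e : ℚ)) ((hwfin j).subset (by
      intro e he h0
      apply he
      change (N : ℚ)⁻¹ * (w j e : ℚ) = 0
      rw [h0]
      simp)) with hw'
  refine hne w' ?_
  funext k
  refine Finsupp.ext fun e => ?_
  have h1 := cast_cobd X p (N : ℚ) w' w (fun j e => by
    change (w j e : ℚ) = N * ((N : ℚ)⁻¹ * (w j e : ℚ))
    rw [← mul_assoc, mul_inv_cancel₀ hNq, one_mul]) k e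
  rw [hwe, hV] at h1
  exact (mul_left_cancel₀ hNq h1).symm

end

end Pool.Agent.Helper80.TD
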